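import Pool.Agent.TH762.SG.Spr

/-!
# Graph isomorphism and sparse sets

Polynomial time is Mathlib's `Turing.TM2ComputableInPolyTime`, for functions on bit strings, and
`Reduces` is polynomial-time many-one reducibility. `GraphIso` is the set of the codes of the pairs of
adjacency matrices of isomorphic finite simple graphs, and `Sparse S` says that the number of strings
of length at most `n` in `S` is at most `p n`, for some polynomial `p` and all `n`.

**Theorem.** If graph isomorphism reduces to a sparse set then it is in `P`.

More generally it is in `P` if it reduces to a set `A` about which one can say anything at all of the
following kind. The input consists of `m` questions `x₁ ∈ A`, ..., `x_m ∈ A` for strings of length at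
most `n`, where `m = m (n)` is any number at most polynomial in `n`, and of `O(log n)` bits of advice;
the output is

* a number `c ≤ m` such that the vector of the answers is not `1 ^ c 0 ^ (m - c)`
  (`ExcludeSorted A`), or
* a number `c ≤ m` which is not the number of positive answers (`ExcludeCount A`), or
* the number of positive answers, computed with `⌊log₂ m⌋` adaptive questions to any oracle
  (`CountQuestions A`).

Proof. If `A` reduces to a sparse set, compute the images of the questions. If two of them are equal,
then a sorted vector which is different there is excluded; if they are all different then the answers
are not all positive, for a suitable `m`. For the general statement consider the lists of the values of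
the isomorphisms from one graph to the other one. There is an isomorphism whose list is not
lexicographically smaller than `u` iff one of polynomially many lists can be extended to an
isomorphism, and this disjunction of isomorphism problems for pairs of graphs with marked vertices is
equivalent to one isomorphism problem: the graphs of the `T` pairs are attached to the ports of a
chain of `T` gadgets, and the twist of the end of the chain can be undone only if the two graphs of a
pair can be exchanged. So the answers to such questions for a decreasing sequence of lists are sorted,
and an excluded sorted vector removes one of the prefixes which are candidates for prefixes of the
largest isomorphism. In this way at most `m` prefixes of every length remain.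
-/

set_option autoImplicit false

namespace Pool.Agent.Results.MP_d13171_lc.SparseGraphIsomorphism

open Pool.Agent.NPC Pool.Agent.H579R2.Spt Pool.Agent.TH684.EX Pool.Agent.TH762.PT
open Pool.Agent.TH762.SG (GraphIso)

/-- **Graph isomorphism and sparse sets.** The following are equivalent: graph isomorphism is in `P`;
it reduces to a sparse set; it reduces to a set for which one sorted vector can be excluded as the
vector of the answers to `m (n)` questions of length at most `n`; it reduces to a set for which one
value of the number of positive answers can be excluded; it reduces to a set for which the number of
positive answers can be found with `⌊log₂ m⌋` questions to an oracle. -/
theorem result : List.TFAE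
    [InP GraphIso,
      ∃ S : Set (List Bool), Sparse S ∧ Reduces GraphIso S,
      ∃ A : Set (List Bool), Reduces GraphIso A ∧ Feasible (ExcludeSorted A),
      ∃ A : Set (List Bool), Reduces GraphIso A ∧ Feasible (ExcludeCount A),
      ∃ A : Set (List Bool), Reduces GraphIso A ∧ CountQuestions A] :=
  Pool.Agent.TH762.SG.gi_law

end Pool.Agent.Results.MP_d13171_lc.SparseGraphIsomorphism
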